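import Pool.Agent.Helper5.SR.St1

/-!
# Project SR, module HK: all stages by induction
-/

set_option autoImplicit false

namespace Pool.Agent.Helper51.SR

open Complex MeasureTheory Set Metric Filter Topology
open scoped Real
open Helper5.SR Pool.Agent.Helper51.LT

theorem AA_succ {m : ℕ} (r : ℕ) (α : ℕ → ℝ) (act : ℕ → Finset (Fin (m + 1))) (l : Fin (m + 1)) :
    AA (r + 1) α act l = AA r (fun b => α (b + 1)) (fun b => act (b + 1)) l +
      (if l ∈ act 0 then α 0 else 0) := by
  unfold AA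
  exact Finset.sum_range_succ' _ _

theorem ss_succ {m : ℕ} (r : ℕ) (α : ℕ → ℝ) (p : ℕ → Fin (m + 1) → ℝ)
    (act : ℕ → Finset (Fin (m + 1))) (l : Fin (m + 1)) :
    ss (r + 1) α p act l = ss r (fun b => α (b + 1)) (fun b => p (b + 1)) (fun b => act (b + 1)) l +
      (if l ∈ act 0 then α 0 / p 0 l else 0) := by
  unfold ss
  exact Finset.sum_range_succ' _ _

theorem Prof_shift {m : ℕ} {r : ℕ} {α : ℕ → ℝ} {p : ℕ → Fin (m + 1) → ℝ}
    {act : ℕ → Finset (Fin (m + 1))} (h : Prof (r + 1) α p act) :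
    Prof r (fun b => α (b + 1)) (fun b => p (b + 1)) (fun b => act (b + 1)) :=
  ⟨fun b => h.1 _, fun b => h.2.1 _, fun b hb => h.2.2.1 _ (by omega), fun b => h.2.2.2 _⟩

theorem ss_nonneg {m : ℕ} {r : ℕ} {α : ℕ → ℝ} {p : ℕ → Fin (m + 1) → ℝ}
    {act : ℕ → Finset (Fin (m + 1))} (h : Prof r α p act) (l : Fin (m + 1)) :
    0 ≤ ss r α p act l := by
  unfold ss
  refine Finset.sum_nonneg fun b _ => ?_
  split_ifs with hl
  · exact div_nonneg (h.1 b) (h.2.1 b l hl).le
  · exact le_rfl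

theorem act_sub {m : ℕ} {r : ℕ} {α : ℕ → ℝ} {p : ℕ → Fin (m + 1) → ℝ}
    {act : ℕ → Finset (Fin (m + 1))} (h : Prof r α p act) (b : ℕ) : act b ⊆ act 0 := by
  induction b with
  | zero => exact Finset.Subset.refl _
  | succ b ih => exact (h.2.2.2 b).trans ih

theorem hHK (hStg : StStg) (hHyp : StHyp) : StHK := by
  intro m ξ hξ hξ1 r
  induction r with
  | zero =>
    intro α p act _
    refine ⟨1, one_pos, fun N hN => ⟨id, ⟨differentiableOn_id, injOn_id _⟩, rfl, ?_, ?_⟩⟩
    · simp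
    · intro l
      simp [AA, ss]
  | succ r ih =>
    intro α p act hP
    have hP' := Prof_shift hP
    obtain ⟨c₁, hc₁, hK₁⟩ := ih _ _ _ hP'
    obtain ⟨C, c, hC, hc, hφ⟩ := hStg (Fin (m+1)) (act 0) ξ (p 0) (hP.2.1 0)
      (hP.2.2.1 0 (Nat.succ_pos r)) (fun l _ => hξ1 l) (fun l _ l' _ h => hξ h)
    obtain ⟨C', hC', hY⟩ := hHyp (max C 1) (min c 1) (lt_max_of_lt_left hC) (lt_min hc one_pos)
    refine ⟨min (c * c₁ / (C * C')) (c * c₁ / C), by positivity, fun N hN => ?_⟩
    have hN0 : 0 < N := by linarith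
    obtain ⟨R, hR⟩ : ∃ R : ℝ, R = N ^ (α 0) := ⟨_, rfl⟩
    have hR1 : 1 ≤ R := hR ▸ Real.one_le_rpow hN (hP.1 0)
    have hR0 : 0 < R := by linarith
    obtain ⟨φ, ⟨⟨hφd, hφi⟩, _⟩, hφ0, hφle, hφ1, hφ2, hφ3⟩ := hφ R hR1
    obtain ⟨K₁, ⟨hKd, hKi⟩, hK0, hK1, hK2⟩ := hK₁ N hN
    have hmaps : MapsTo φ (ball 0 1) (ball 0 1) := by
      intro z hz
      rw [mem_ball_zero_iff] at hz ⊢
      exact (hφle z (mem_ball_zero_iff.2 hz)).trans_lt hz
    have h0b : (0 : ℂ) ∈ ball (0 : ℂ) 1 := mem_ball_self one_pos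
    have hRC : 0 < R / C := by positivity
    have hRCc : ((R / C : ℝ) : ℂ) ≠ 0 := by exact_mod_cast hRC.ne'
    obtain ⟨K, hKdef⟩ : ∃ K : ℂ → ℂ, K = fun z => ((R / C : ℝ) : ℂ) * K₁ (φ z) := ⟨_, rfl⟩
    have hcomp : DifferentiableOn ℂ (fun z => K₁ (φ z)) (ball 0 1) := hKd.comp hφd hmaps
    have hnd : ∀ z ∈ ball (0 : ℂ) 1,
        ‖deriv K z‖ = R / C * (‖deriv K₁ (φ z)‖ * ‖deriv φ z‖) := by
      intro z hz
      have h1 : HasDerivAt φ (deriv φ z) z :=
        ((hφd z hz).differentiableAt (isOpen_ball.mem_nhds hz)).hasDerivAt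
      have h2 : HasDerivAt K₁ (deriv K₁ (φ z)) (φ z) :=
        ((hKd _ (hmaps hz)).differentiableAt (isOpen_ball.mem_nhds (hmaps hz))).hasDerivAt
      have h3 : HasDerivAt K (((R / C : ℝ) : ℂ) * (deriv K₁ (φ z) * deriv φ z)) z := by
        rw [hKdef]
        exact (h2.comp z h1).const_mul _
      rw [h3.deriv, norm_mul, norm_mul, Complex.norm_real, Real.norm_of_nonneg hRC.le]
    refine ⟨K, ⟨?_, ?_⟩, ?_, ?_, ?_⟩
    · rw [hKdef]; exact hcomp.const_mul _
    · rw [hKdef]
      intro z hz w hw h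
      exact hφi hz hw (hKi (hmaps hz) (hmaps hw) (mul_left_cancel₀ hRCc h))
    · rw [hKdef]; simp [hφ0, hK0]
    · rw [hnd 0 h0b, hφ0]
      calc R / C * (‖deriv K₁ 0‖ * ‖deriv φ 0‖) ≤ R / C * (1 * (C / R)) := by gcongr
        _ = 1 := by field_simp
    · intro l
      have hs1 := ss_nonneg hP' l
      have hss0 := ss_nonneg hP l
      have hAs := AA_succ r α act l
      have hss := ss_succ r α p act l
      have hIH := hK2 l
      obtain ⟨s₁, hs₁⟩ : ∃ s₁ : ℝ, s₁ = ss r (fun b => α (b + 1)) (fun b => p (b + 1))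
        (fun b => act (b + 1)) l := ⟨_, rfl⟩
      obtain ⟨A₁, hA₁⟩ : ∃ A₁ : ℝ, A₁ = AA r (fun b => α (b + 1)) (fun b => act (b + 1)) l :=
        ⟨_, rfl⟩
      obtain ⟨S, hS⟩ : ∃ S : ℝ, S = ss (r + 1) α p act l := ⟨_, rfl⟩
      obtain ⟨A, hA⟩ : ∃ A : ℝ, A = AA (r + 1) α act l := ⟨_, rfl⟩
      rw [← hs₁] at hs1 hss hIH
      rw [← hS] at hss0 hss
      rw [← hA₁] at hAs hIH
      rw [← hA] at hAs
      rw [← hS, ← hA]
      -- the degenerate case
      have hdeg : N ^ (-s₁) = 1 → N ^ (-S) = 1 → N ^ A = N ^ A₁ →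
          min (c * c₁ / (C * C')) (c * c₁ / C) * N ^ A ≤
            ‖deriv K (((1 - N ^ (-S) : ℝ) : ℂ) * ξ l)‖ * N ^ (-S) := by
        intro h1 h2 h3
        rw [h1] at hIH
        rw [h2, h3, sub_self, Complex.ofReal_zero, zero_mul, mul_one, hnd 0 h0b, hφ0]
        rw [sub_self, Complex.ofReal_zero, zero_mul, mul_one] at hIH
        calc min (c * c₁ / (C * C')) (c * c₁ / C) * N ^ A₁
            ≤ (c * c₁ / C) * N ^ A₁ := by
              gcongr
              exact min_le_right _ _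
          _ = (c / C) * (c₁ * N ^ A₁) := by ring
          _ ≤ (c / C) * ‖deriv K₁ 0‖ := by gcongr
          _ = R / C * (‖deriv K₁ 0‖ * (c / R)) := by field_simp
          _ ≤ R / C * (‖deriv K₁ 0‖ * ‖deriv φ 0‖) := by gcongr
      by_cases hl : l ∈ act 0
      · have hp : 0 < p 0 l := hP.2.1 0 l hl
        rw [if_pos hl] at hAs hss
        by_cases hlt : N ^ (-S) < 1
        · -- main case
          have ht0 : 0 < N ^ (-S) := Real.rpow_pos_of_pos hN0 _
          have hRp : R ^ (1 / p 0 l) = N ^ (α 0 / p 0 l) := by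
            rw [hR, ← Real.rpow_mul hN0.le]
            congr 1
            ring
          have hu : N ^ (-S) * R ^ (1 / p 0 l) = N ^ (-s₁) := by
            rw [hRp, ← Real.rpow_add hN0]
            congr 1
            rw [hss]; ring
          have hu0 : 0 < N ^ (-s₁) := Real.rpow_pos_of_pos hN0 _
          have hu1 : N ^ (-s₁) ≤ 1 := Real.rpow_le_one_of_one_le_of_nonpos hN (by linarith)
          obtain ⟨h1, h2, h3⟩ := hφ3 l hl (N ^ (-S)) ht0 hlt (by rw [hu]; exact hu1)
          rw [hu] at h1 h2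
          obtain ⟨z, hz⟩ : ∃ z : ℂ, z = (((1 - N ^ (-S) : ℝ) : ℂ) * ξ l) := ⟨_, rfl⟩
          have hz' : (1 - ((N ^ (-S) : ℝ) : ℂ)) * ξ l = z := by rw [hz]; push_cast; ring
          rw [hz'] at h1 h2 h3
          rw [← hz]
          have hzb : z ∈ ball (0 : ℂ) 1 := by
            rw [mem_ball_zero_iff, hz, norm_mul, hξ1 l, mul_one, Complex.norm_real,
              Real.norm_of_nonneg (by linarith)]
            linarith
          rw [hnd z hzb]
          have hcmp := hY K₁ (ξ l) (φ z) (((1 - N ^ (-s₁) : ℝ) : ℂ) * ξ l) (N ^ (-s₁)) ⟨hKd, hKi⟩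
            hu0 (h1.trans (by gcongr; exact le_max_left _ _)) ?_
            (le_trans (by gcongr; exact min_le_left _ _) h2) ?_
          · have hNA : N ^ A = N ^ A₁ * R := by rw [hAs, hR, Real.rpow_add hN0]
            calc min (c * c₁ / (C * C')) (c * c₁ / C) * N ^ A
                ≤ (c * c₁ / (C * C')) * N ^ A := by
                  gcongr
                  exact min_le_left _ _
              _ = (c / (C * C')) * R * (c₁ * N ^ A₁) := by rw [hNA]; ring
              _ ≤ (c / (C * C')) * R *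
                  (‖deriv K₁ (((1 - N ^ (-s₁) : ℝ) : ℂ) * ξ l)‖ * N ^ (-s₁)) := by gcongr
              _ ≤ (c / (C * C')) * R * ((C' * ‖deriv K₁ (φ z)‖) * N ^ (-s₁)) := by gcongr
              _ = R / C * (‖deriv K₁ (φ z)‖ * (c * R ^ (1 / p 0 l))) * N ^ (-S) := by
                  rw [← hu]; field_simp
              _ ≤ R / C * (‖deriv K₁ (φ z)‖ * ‖deriv φ z‖) * N ^ (-S) := by gcongr
          · have : (((1 - N ^ (-s₁) : ℝ) : ℂ) * ξ l) - ξ l = -(((N ^ (-s₁) : ℝ) : ℂ) * ξ l) := by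
              push_cast; ring
            rw [this, norm_neg, norm_mul, hξ1 l, mul_one, Complex.norm_real,
              Real.norm_of_nonneg hu0.le]
            nlinarith [le_max_right C 1]
          · rw [norm_mul, hξ1 l, mul_one, Complex.norm_real,
              Real.norm_of_nonneg (by linarith)]
            nlinarith [min_le_right c 1]
        · have hS1 : N ^ (-S) = 1 :=
            le_antisymm (Real.rpow_le_one_of_one_le_of_nonpos hN (by linarith)) (not_lt.1 hlt)
          have hα : 0 ≤ α 0 / p 0 l := div_nonneg (hP.1 0) hp.le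
          have hs11 : N ^ (-s₁) = 1 := by
            refine le_antisymm (Real.rpow_le_one_of_one_le_of_nonpos hN (by linarith)) ?_
            rw [← hS1]
            exact Real.rpow_le_rpow_of_exponent_le hN (by linarith)
          have hq : N ^ (α 0 / p 0 l) = 1 := by
            have : N ^ (-S) * N ^ (α 0 / p 0 l) = N ^ (-s₁) := by
              rw [← Real.rpow_add hN0]
              congr 1
              rw [hss]; ring
            rw [hS1, hs11, one_mul] at this
            exact this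
          have hRR : N ^ (α 0) = 1 := by
            have : N ^ (α 0) = (N ^ (α 0 / p 0 l)) ^ (p 0 l) := by
              rw [← Real.rpow_mul hN0.le]
              congr 1
              field_simp
            rw [this, hq, Real.one_rpow]
          exact hdeg hs11 hS1 (by rw [hAs, Real.rpow_add hN0, hRR, mul_one])
      · have hnot : ∀ b, l ∉ act b := fun b hb => hl (act_sub hP b hb)
        have hs10 : s₁ = 0 := by
          rw [hs₁]; unfold ss
          exact Finset.sum_eq_zero fun b _ => if_neg (hnot _)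
        rw [if_neg hl, add_zero] at hAs hss
        have e1 : N ^ (-s₁) = 1 := by rw [hs10, neg_zero, Real.rpow_zero]
        exact hdeg e1 (by rw [hss]; exact e1) (by rw [hAs])

end Pool.Agent.Helper51.SR
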