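import Pool.Agent.Helper5.SR.St4

/-!
# Project SR, module LOX: localization by a power of the cosine
-/

set_option autoImplicit false

namespace Pool.Agent.Helper51.SR

open Complex MeasureTheory Set Metric Filter Topology
open scoped Real
open Pool.Agent.Helper60.Rel (LH tc Admissible ClassS)
open Helper5.SR Pool.Agent.Helper51.LT

theorem cos_pow_nonneg (x : ℝ) (q : ℕ) : 0 ≤ Real.cos x ^ (2 * q) := by
  rw [pow_mul]; positivity

/-- lower bound near the centre -/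
theorem cos_pow_ge {x ρ : ℝ} {q : ℕ} (hρ : 0 ≤ ρ) (hρ1 : ρ ≤ 1) (hq : q * ρ ^ 2 ≤ 1)
    (hx : |x| ≤ ρ) : 3 / 4 ≤ Real.cos (x / 2) ^ (2 * q) := by
  have hx2 : x ^ 2 ≤ ρ ^ 2 := by
    rw [← sq_abs x]
    exact pow_le_pow_left₀ (abs_nonneg _) hx 2
  have h1 : 1 - x ^ 2 / 8 ≤ Real.cos (x / 2) := by
    have := Real.one_sub_sq_div_two_le_cos (x := x / 2)
    calc 1 - x ^ 2 / 8 = 1 - (x / 2) ^ 2 / 2 := by ring
      _ ≤ _ := this
  have h0 : 0 ≤ 1 - x ^ 2 / 8 := by nlinarith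
  have h2 : (1 - x ^ 2 / 8) ^ (2 * q) ≤ Real.cos (x / 2) ^ (2 * q) :=
    pow_le_pow_left₀ h0 h1 _
  have h3 := one_add_mul_le_pow (a := -(x ^ 2 / 8)) (by nlinarith) (2 * q)
  have h4 : (q : ℝ) * x ^ 2 ≤ 1 := by
    have : (q : ℝ) * x ^ 2 ≤ q * ρ ^ 2 := by gcongr
    linarith
  push_cast at h3
  calc (3 / 4 : ℝ) ≤ 1 + 2 * (q : ℝ) * -(x ^ 2 / 8) := by nlinarith
    _ ≤ (1 + -(x ^ 2 / 8)) ^ (2 * q) := h3
    _ = (1 - x ^ 2 / 8) ^ (2 * q) := by ring
    _ ≤ _ := h2

/-- upper bound away from the centre -/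
theorem cos_pow_le {x s : ℝ} {q : ℕ} (hs : 0 ≤ s) (hx : s ≤ |x|) (hx1 : |x| ≤ π) :
    Real.cos (x / 2) ^ (2 * q) ≤ Real.exp (-(q * (s ^ 2 / π ^ 2))) := by
  have hpi := Real.pi_pos
  have hxx : |x / 2| ≤ π / 2 := by rw [abs_div, abs_two]; linarith
  have h0 : 0 ≤ Real.cos (x / 2) :=
    Real.cos_nonneg_of_mem_Icc ⟨by linarith [(abs_le.1 hxx).1], (abs_le.1 hxx).2⟩
  have h1 : Real.cos (x / 2) ≤ Real.exp (-(x ^ 2 / (2 * π ^ 2))) := by
    have := Real.cos_le_one_sub_mul_cos_sq (x := x / 2) (by linarith)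
    have h2 := Real.add_one_le_exp (-(x ^ 2 / (2 * π ^ 2)))
    have h3 : 1 - 2 / π ^ 2 * (x / 2) ^ 2 = -(x ^ 2 / (2 * π ^ 2)) + 1 := by
      field_simp; ring
    linarith
  have hx2 : s ^ 2 ≤ x ^ 2 := by
    rw [← sq_abs x]
    exact pow_le_pow_left₀ hs hx 2
  calc Real.cos (x / 2) ^ (2 * q) ≤ Real.exp (-(x ^ 2 / (2 * π ^ 2))) ^ (2 * q) :=
        pow_le_pow_left₀ h0 h1 _
    _ = Real.exp (-(q * (x ^ 2 / π ^ 2))) := by
        rw [← Real.exp_nat_mul]
        congr 1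
        push_cast
        field_simp
    _ ≤ _ := by
        apply Real.exp_le_exp.2
        have : (q : ℝ) * (s ^ 2 / π ^ 2) ≤ q * (x ^ 2 / π ^ 2) := by gcongr
        linarith

theorem exp_diff (i : ℕ) (t θ : ℝ) :
    ‖exp (-(i * t * I)) - exp (-(i * θ * I))‖ ≤ i * |t - θ| := by
  have e1 : exp (-(i * t * I)) - exp (-(i * θ * I))
      = exp (-(i * θ * I)) * (exp (((-(i * (t - θ)) : ℝ) : ℂ) * I) - 1) := by
    rw [mul_sub, ← Complex.exp_add, mul_one]
    congr 2
    push_cast; ring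
  have e2 : ‖exp (-(i * θ * I))‖ = 1 := by
    have : (-(i * θ * I) : ℂ) = ((-(i * θ) : ℝ) : ℂ) * I := by push_cast; ring
    rw [this, Complex.norm_exp_ofReal_mul_I]
  rw [e1, norm_mul, e2, one_mul]
  have h := Real.norm_exp_I_mul_ofReal_sub_one_le (x := -(i * (t - θ)))
  rw [mul_comm I] at h
  refine h.trans (le_of_eq ?_)
  rw [Real.norm_eq_abs, abs_neg, abs_mul, Nat.abs_cast]

theorem hLox : StLox := by
  intro m ε₁ hε₁
  have hpi := Real.pi_pos
  have hm1 : (0 : ℝ) < m + 1 := by positivity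
  obtain ⟨s₁, hs₁⟩ : ∃ s₁ : ℝ, s₁ = ε₁ / (8 * (m + 1)) := ⟨_, rfl⟩
  have hs₁0 : 0 < s₁ := by rw [hs₁]; positivity
  obtain ⟨A, hA⟩ : ∃ A : ℝ, A = 20 * π ^ 2 * (m + 1) / ε₁ := ⟨_, rfl⟩
  have hA0 : 0 < A := by rw [hA]; positivity
  obtain ⟨C, hC⟩ : ∃ C : ℝ, C = (π ^ 2 / s₁ ^ 2) * (10 / 3 * |Real.log A| + 1) := ⟨_, rfl⟩
  refine ⟨max 1 C, le_max_left _ _, ?_⟩
  intro g φ θ ρ μ S q hg hφ hgS hφg hμ hρ hρ1 hqρ hmass hq
  obtain ⟨W, hW⟩ : ∃ W : ℝ → ℝ, W = fun t => Real.cos ((t - θ) / 2) ^ (2 * q) := ⟨_, rfl⟩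
  have hWc : Continuous W := by rw [hW]; fun_prop
  have hW0 : ∀ t, 0 ≤ W t := by intro t; rw [hW]; exact cos_pow_nonneg _ _
  have hab : θ - π ≤ θ + π := by linarith
  obtain ⟨G, hG⟩ : ∃ G : ℝ, G = ∫ t in (θ - π)..(θ + π), g t * W t := ⟨_, rfl⟩
  obtain ⟨Y, hY⟩ : ∃ Y : ℂ, Y = ∫ t in (θ - π)..(θ + π), φ t * (W t : ℂ) := ⟨_, rfl⟩
  have hYe : (∫ t in (θ - π)..(θ + π), φ t * (Real.cos ((t - θ) / 2) ^ (2 * q) : ℝ)) = Y := by
    rw [hY, hW]
  -- total mass
  have hmS : μ ≤ 2 * S := by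
    have h1 : (∫ t in (θ - ρ)..(θ + ρ), g t) ≤ ∫ t in (θ - ρ)..(θ + ρ), S := by
      apply intervalIntegral.integral_mono_on (by linarith) (hg.intervalIntegrable _ _)
        (intervalIntegrable_const)
      intro t _; exact (hgS t).2
    rw [intervalIntegral.integral_const, smul_eq_mul] at h1
    have hS0 : 0 ≤ S := (hgS 0).1.trans (hgS 0).2
    nlinarith
  have hS : 0 < S := by linarith
  -- lower bound for G
  have hGμ : 3 / 4 * μ ≤ G := by
    have h1 : (∫ t in (θ - ρ)..(θ + ρ), 3 / 4 * g t) ≤ ∫ t in (θ - ρ)..(θ + ρ), g t * W t := by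
      apply intervalIntegral.integral_mono_on (by linarith)
        ((hg.const_mul _).intervalIntegrable _ _) ((hg.mul hWc).intervalIntegrable _ _)
      intro t ht
      have h2 : |t - θ| ≤ ρ := abs_le.2 ⟨by linarith [ht.1], by linarith [ht.2]⟩
      have h3 : 3 / 4 ≤ W t := by rw [hW]; exact cos_pow_ge hρ.le hρ1 hqρ h2
      have h4 := (hgS t).1
      show 3 / 4 * g t ≤ g t * W t
      nlinarith
    have h2 : (∫ t in (θ - ρ)..(θ + ρ), g t * W t) ≤ G := by
      rw [hG]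
      apply intervalIntegral.integral_mono_interval (by linarith [Real.pi_gt_three])
        (by linarith) (by linarith [Real.pi_gt_three])
      · exact ae_of_all _ fun t => mul_nonneg (hgS t).1 (hW0 t)
      · exact (hg.mul hWc).intervalIntegrable _ _
    rw [intervalIntegral.integral_const_mul] at h1
    nlinarith
  have hG0 : 0 < G := by nlinarith
  have hgWi : IntervalIntegrable (fun t => g t * W t) volume (θ - π) (θ + π) :=
    (hg.mul hWc).intervalIntegrable _ _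
  have hφWi : IntervalIntegrable (fun t => φ t * (W t : ℂ)) volume (θ - π) (θ + π) :=
    (hφ.mul (continuous_ofReal.comp hWc)).intervalIntegrable _ _
  have hYG : ‖Y - G‖ ≤ 1 / 4 * G := by
    have e1 : Y - G = ∫ t in (θ - π)..(θ + π), (φ t - g t) * (W t : ℂ) := by
      have e2 : (G : ℂ) = ∫ t in (θ - π)..(θ + π), ((g t : ℂ) * (W t : ℂ)) := by
        rw [hG, ← intervalIntegral.integral_ofReal]
        congr 1
        ext t
        push_cast; ring
      have hi2 : IntervalIntegrable (fun t => (g t : ℂ) * (W t : ℂ)) volume (θ - π) (θ + π) :=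
        ((continuous_ofReal.comp hg).mul (continuous_ofReal.comp hWc)).intervalIntegrable _ _
      rw [hY, e2, ← intervalIntegral.integral_sub hφWi hi2]
      congr 1
      ext t
      ring
    rw [e1, hG, ← intervalIntegral.integral_const_mul]
    apply intervalIntegral.norm_integral_le_of_norm_le hab
    · refine ae_of_all _ fun t _ => ?_
      rw [norm_mul, Complex.norm_real, Real.norm_of_nonneg (hW0 t)]
      have := mul_le_mul_of_nonneg_right (hφg t) (hW0 t)
      linarith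
    · exact (continuous_const.mul (hg.mul hWc)).intervalIntegrable _ _
  have hYge : 3 / 4 * G ≤ ‖Y‖ := by
    have h1 : ‖(G : ℂ)‖ = G := by rw [Complex.norm_real, Real.norm_of_nonneg hG0.le]
    have h2 : ‖(G : ℂ)‖ ≤ ‖Y‖ + ‖Y - G‖ := by
      calc ‖(G : ℂ)‖ = ‖Y - (Y - G)‖ := by congr 1; ring
        _ ≤ _ := norm_sub_le _ _
    linarith
  rw [hYe]
  refine ⟨by linarith, ?_⟩
  intro i hi
  -- the weight away from the centre
  obtain ⟨E, hE⟩ : ∃ E : ℝ, E = Real.exp (-(q * (s₁ ^ 2 / π ^ 2))) := ⟨_, rfl⟩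
  have hE0 : 0 < E := hE ▸ Real.exp_pos _
  have hEb : E * (A * (S / μ)) ≤ 1 := by
    have hSμ : 0 < S / μ := by positivity
    have hlog : Real.log (A * (S / μ)) ≤ q * (s₁ ^ 2 / π ^ 2) := by
      rw [Real.log_mul hA0.ne' hSμ.ne']
      have h1 : 3 / 10 ≤ 1 + Real.log (S / μ) := by
        have h2 : 1 / 2 ≤ S / μ := by rw [div_le_div_iff₀ (by norm_num) hμ]; linarith
        have h3 := Real.log_le_log (by norm_num) h2
        rw [one_div, Real.log_inv] at h3
        have := Real.log_two_lt_d9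
        linarith
      have h2 : Real.log A ≤ 10 / 3 * |Real.log A| * (1 + Real.log (S / μ)) := by
        have := le_abs_self (Real.log A)
        have h4 := abs_nonneg (Real.log A)
        nlinarith
      have h3 : C * (1 + Real.log (S / μ)) ≤ q :=
        le_trans (by gcongr; exact le_max_right _ _) hq
      rw [hC] at h3
      have h5 : (10 / 3 * |Real.log A| + 1) * (1 + Real.log (S / μ)) ≤ q * (s₁ ^ 2 / π ^ 2) := by
        have h6 := mul_le_mul_of_nonneg_right h3 (show (0 : ℝ) ≤ s₁ ^ 2 / π ^ 2 by positivity)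
        calc _ = π ^ 2 / s₁ ^ 2 * (10 / 3 * |Real.log A| + 1) * (1 + Real.log (S / μ)) *
              (s₁ ^ 2 / π ^ 2) := by field_simp
          _ ≤ _ := h6
      linarith
    have hAS : 0 < A * (S / μ) := by positivity
    have h7 : A * (S / μ) ≤ Real.exp (q * (s₁ ^ 2 / π ^ 2)) := by
      rw [← Real.log_le_iff_le_exp hAS]; exact hlog
    calc E * (A * (S / μ)) ≤ E * Real.exp (q * (s₁ ^ 2 / π ^ 2)) := by gcongr
      _ = 1 := by rw [hE, ← Real.exp_add]; simp
  have hmi : (i : ℝ) ≤ 2 * (m + 1) := by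
    have : (i : ℝ) ≤ 2 * m := by exact_mod_cast hi
    linarith
  have hpt : ∀ t ∈ Icc (θ - π) (θ + π), ‖φ t * (W t : ℂ) *
      (exp (-(i * t * I)) - exp (-(i * θ * I)))‖
      ≤ 5 / 4 * (2 * (m + 1) * s₁) * (g t * W t) + 5 / 4 * (2 * (m + 1) * π) * E * S := by
    intro t ht
    have hφt : ‖φ t‖ ≤ 5 / 4 * g t := by
      have h1 : ‖(g t : ℂ)‖ = g t := by rw [Complex.norm_real, Real.norm_of_nonneg (hgS t).1]
      calc ‖φ t‖ = ‖(φ t - g t) + g t‖ := by congr 1; ring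
        _ ≤ ‖φ t - g t‖ + ‖(g t : ℂ)‖ := norm_add_le _ _
        _ ≤ 1 / 4 * g t + g t := by rw [h1]; gcongr; exact hφg t
        _ = _ := by ring
    have hd := exp_diff i t θ
    have habs : |t - θ| ≤ π := abs_le.2 ⟨by linarith [ht.1], by linarith [ht.2]⟩
    have hgt := (hgS t).1
    have hWt := hW0 t
    rw [norm_mul, norm_mul, Complex.norm_real, Real.norm_of_nonneg hWt]
    have h1 : ‖φ t‖ * W t * ‖exp (-(i * t * I)) - exp (-(i * θ * I))‖
        ≤ (5 / 4 * g t) * W t * (2 * (m + 1) * |t - θ|) := by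
      gcongr
      exact hd.trans (by gcongr)
    refine h1.trans ?_
    rcases le_total |t - θ| s₁ with hc | hc
    · have h2 : (5 / 4 * g t) * W t * (2 * (m + 1) * |t - θ|)
          ≤ (5 / 4 * g t) * W t * (2 * (m + 1) * s₁) := by gcongr
      have h3 : 0 ≤ 5 / 4 * (2 * (m + 1) * π) * E * S := by positivity
      linarith
    · have h2 : W t ≤ E := by
        rw [hW, hE]
        exact cos_pow_le hs₁0.le hc habs
      have h3 : (5 / 4 * g t) * W t * (2 * (m + 1) * |t - θ|)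
          ≤ (5 / 4 * S) * E * (2 * (m + 1) * π) := by
        gcongr
        exact (hgS t).2
      have h4 : 0 ≤ 5 / 4 * (2 * (m + 1) * s₁) * (g t * W t) := by positivity
      linarith
  have hexpc : Continuous fun t : ℝ => exp (-(i * t * I)) := by fun_prop
  have e1 : (∫ t in (θ - π)..(θ + π), φ t * (Real.cos ((t - θ) / 2) ^ (2 * q) : ℝ) *
      exp (-(i * t * I))) - exp (-(i * θ * I)) * Y
      = ∫ t in (θ - π)..(θ + π), φ t * (W t : ℂ) * (exp (-(i * t * I)) - exp (-(i * θ * I))) := by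
    rw [hY, ← intervalIntegral.integral_const_mul, hW, ← intervalIntegral.integral_sub]
    · congr 1
      ext t
      ring
    · rw [hW] at hWc
      exact ((hφ.mul (continuous_ofReal.comp hWc)).mul hexpc).intervalIntegrable _ _
    · rw [hW] at hWc
      exact (continuous_const.mul (hφ.mul (continuous_ofReal.comp hWc))).intervalIntegrable _ _
  rw [e1]
  have h2 := intervalIntegral.norm_integral_le_of_norm_le (μ := volume) hab
    (f := fun t => φ t * (W t : ℂ) * (exp (-(i * t * I)) - exp (-(i * θ * I))))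
    (g := fun t => 5 / 4 * (2 * (m + 1) * s₁) * (g t * W t) + 5 / 4 * (2 * (m + 1) * π) * E * S)
    (ae_of_all _ fun t ht => hpt t (Ioc_subset_Icc_self ht))
    (((continuous_const.mul (hg.mul hWc)).add continuous_const).intervalIntegrable _ _)
  refine h2.trans ?_
  have hi3 : IntervalIntegrable (fun t => 5 / 4 * (2 * (m + 1) * s₁) * (g t * W t)) volume
      (θ - π) (θ + π) := hgWi.const_mul _
  rw [intervalIntegral.integral_add hi3
    intervalIntegrable_const, intervalIntegral.integral_const_mul, ← hG,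
    intervalIntegral.integral_const, smul_eq_mul]
  have h3 : 5 / 4 * (2 * (m + 1) * s₁) * G ≤ 5 / 12 * ε₁ * ‖Y‖ := by
    have : 5 / 4 * (2 * ((m : ℝ) + 1) * s₁) = 5 / 16 * ε₁ := by rw [hs₁]; field_simp; ring
    rw [this]
    nlinarith
  have h4 : (θ + π - (θ - π)) * (5 / 4 * (2 * (m + 1) * π) * E * S) ≤ ε₁ / 4 * μ := by
    have h5 : E * (20 * π ^ 2 * (m + 1)) * S ≤ ε₁ * μ := by
      rw [hA] at hEb
      have h6 := mul_le_mul_of_nonneg_left hEb (show (0 : ℝ) ≤ ε₁ * μ by positivity)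
      calc E * (20 * π ^ 2 * (m + 1)) * S
          = ε₁ * μ * (E * (20 * π ^ 2 * (m + 1) / ε₁ * (S / μ))) := by field_simp
        _ ≤ _ := h6
        _ = ε₁ * μ := mul_one _
    nlinarith
  nlinarith

end Pool.Agent.Helper51.SR
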