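import Pool.Agent.Helper5.SR.St4

/-!
# Project SR, module WIN: the window
-/

set_option autoImplicit false

namespace Pool.Agent.Helper51.SR

open Complex MeasureTheory Set Metric Filter Topology
open scoped Real
open Pool.Agent.Helper60.Rel (LH tc Admissible ClassS)
open Helper5.SR Pool.Agent.Helper51.LT

theorem tc_add {F G : ℂ → ℂ} {d : ℝ} (hd : 0 < d) (hF : DifferentiableOn ℂ F (ball 0 (1 + d)))
    (hG : DifferentiableOn ℂ G (ball 0 (1 + d))) (n : ℕ) :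
    tc (fun z => F z + G z) n = tc F n + tc G n := by
  have h0 : (0 : ℂ) ∈ ball (0 : ℂ) (1 + d) := mem_ball_self (by linarith)
  have e1 : ContDiffAt ℂ n F 0 := ((hF.analyticOnNhd isOpen_ball) 0 h0).contDiffAt
  have e2 : ContDiffAt ℂ n G 0 := ((hG.analyticOnNhd isOpen_ball) 0 h0).contDiffAt
  unfold tc
  have := iteratedDeriv_fun_add e1 e2
  rw [this, add_div]

theorem norm_exp_neg (a : ℝ) (b : ℝ) : ‖exp (-(a * b * I))‖ = 1 := by
  have : (-(a * b * I) : ℂ) = ((-(a * b) : ℝ) : ℂ) * I := by push_cast; ring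
  rw [this, Complex.norm_exp_ofReal_mul_I]

theorem norm_exp_neg1 (b : ℝ) : ‖exp (-(b * I))‖ = 1 := by
  have : (-(b * I) : ℂ) = ((-b : ℝ) : ℂ) * I := by push_cast; ring
  rw [this, Complex.norm_exp_ofReal_mul_I]

theorem hWin (hHan : StHan) (hLox : StLox) (hCoe : StCoe) (hPol : StPol) (hCJU : StCJU) :
    StWin := by
  intro m θ hθ
  obtain ⟨ζ, hζ⟩ : ∃ ζ : Fin (m + 1) → ℂ, ζ = fun l => exp (-(θ l * I)) := ⟨_, rfl⟩
  have hζi : Function.Injective ζ := by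
    intro l l' h
    rw [hζ] at h
    simp only [Complex.exp_neg] at h
    exact hθ (inv_injective h)
  have hζ1 : ∀ l, ‖ζ l‖ = 1 := by
    intro l; rw [hζ]; exact norm_exp_neg1 _
  obtain ⟨c₀, ε₀, hc₀, hε₀, hH⟩ := hHan m ζ hζi hζ1
  obtain ⟨C₇, hC₇, hL7⟩ := hLox m (ε₀ / 2) (by positivity)
  have hpi := Real.pi_pos
  obtain ⟨κ, hκ⟩ : ∃ κ : ℝ, κ = 1 / 2000 * (m + 1 : ℝ)⁻¹ * (2 * π)⁻¹ := ⟨_, rfl⟩
  have hκ0 : 0 < κ := by rw [hκ]; positivity
  refine ⟨c₀ * κ / 2, C₇, ⌈4 * m / ε₀⌉₊ + 1, by positivity, hC₇, ?_⟩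
  intro d G L M q ρ μ S hd hd1 hG hGS hμ hρ hρ1 hqρ hq hmass hL hM hMn
  obtain ⟨p, hp1, hp2, -⟩ := hPol d G 1 L hd hd1 hG
    (by intro ω z hω _; rw [pow_one] at hω; rw [hω, one_mul, one_mul]) le_rfl (one_dvd L) hL
  -- the two functions on the circle
  obtain ⟨φ, hφ⟩ : ∃ φ : ℝ → ℂ, φ = fun t : ℝ =>
    (deriv G (exp (t * I)) * p.eval (exp (t * I)) * (exp (t * I) ^ L)⁻¹) := ⟨_, rfl⟩
  obtain ⟨g, hg⟩ : ∃ g : ℝ → ℝ, g = fun t : ℝ => ‖deriv G (exp (t * I))‖ := ⟨_, rfl⟩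
  have hex : ∀ t : ℝ, ‖exp (t * I)‖ = 1 := fun t => Complex.norm_exp_ofReal_mul_I t
  have hdG : DifferentiableOn ℂ (deriv G) (ball 0 (1 + d)) := hG.1.deriv isOpen_ball
  have hce : Continuous fun t : ℝ => exp (t * I) := by fun_prop
  have hcd : Continuous fun t : ℝ => deriv G (exp (t * I)) := by
    apply hdG.continuousOn.comp_continuous hce
    intro t
    rw [mem_ball_zero_iff, hex]; linarith
  have hgc : Continuous g := by rw [hg]; exact hcd.norm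
  have hφc : Continuous φ := by
    rw [hφ]
    refine (hcd.mul (p.continuous.comp hce)).mul (Continuous.inv₀ (by fun_prop) ?_)
    intro t; exact pow_ne_zero _ (exp_ne_zero _)
  have hgS : ∀ t, 0 ≤ g t ∧ g t ≤ S := by
    intro t; rw [hg]; exact ⟨norm_nonneg _, hGS _ (hex t)⟩
  have hφg : ∀ t, ‖φ t - g t‖ ≤ 1 / 4 * g t := by
    intro t; rw [hφ, hg]; exact hp1 _ (hex t)
  have hlox : ∀ l, _ := fun l => hL7 g φ (θ l) ρ μ S q hgc hφc hgS hφg hμ hρ hρ1 hqρ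
    (by rw [hg]; exact hmass l) hq
  -- the integrals
  obtain ⟨Y, hY⟩ : ∃ Y : Fin (m + 1) → ℂ, Y = fun l => ∫ t in (θ l - π)..(θ l + π),
    φ t * (Real.cos ((t - θ l) / 2) ^ (2 * q) : ℝ) := ⟨_, rfl⟩
  obtain ⟨Z, hZ⟩ : ∃ Z : Fin (m + 1) → ℕ → ℂ, Z = fun (l : Fin (m + 1)) (i : ℕ) => ∫ t in (θ l - π)..(θ l + π),
    φ t * (Real.cos ((t - θ l) / 2) ^ (2 * q) : ℝ) * exp (-(i * t * I)) := ⟨_, rfl⟩
  have hY1 : ∀ l, μ / 2 ≤ ‖Y l‖ := by intro l; rw [hY]; exact (hlox l).1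
  have hZ1 : ∀ l, ∀ i ≤ 2 * m, ‖Z l i - exp (-(i * θ l * I)) * Y l‖ ≤ ε₀ / 2 * ‖Y l‖ := by
    intro l i hi; rw [hY, hZ]; exact (hlox l).2 i hi
  have hY0 : ∀ l, 0 < ‖Y l‖ := fun l => lt_of_lt_of_le (by positivity) (hY1 l)
  obtain ⟨l₀, -, hl₀⟩ := Finset.exists_min_image (Finset.univ : Finset (Fin (m + 1)))
    (fun l => ‖Y l‖) ⟨0, Finset.mem_univ _⟩
  obtain ⟨μ₁, hμ₁⟩ : ∃ μ₁ : ℝ, μ₁ = ‖Y l₀‖ := ⟨_, rfl⟩
  have hμ10 : 0 < μ₁ := hμ₁ ▸ hY0 l₀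
  have hμ1Y : ∀ l, μ₁ ≤ ‖Y l‖ := fun l => hμ₁ ▸ hl₀ l (Finset.mem_univ _)
  have hμ1h : μ / 2 ≤ μ₁ := hμ₁ ▸ hY1 l₀
  obtain ⟨e, he⟩ : ∃ e : Fin (m + 1) → ℂ, e = fun l => (μ₁ : ℂ) / (exp (-(q * θ l * I)) * Y l) :=
    ⟨_, rfl⟩
  have hqn : ∀ l, ‖exp (-(q * θ l * I))‖ = 1 := by
    intro l
    have := norm_exp_neg (q : ℝ) (θ l)
    push_cast at this; exact this
  have he1 : ∀ l, ‖e l‖ ≤ 1 := by
    intro l
    rw [he]
    simp only
    rw [norm_div, norm_mul, hqn, one_mul, Complex.norm_real, Real.norm_of_nonneg hμ10.le,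
      div_le_one (hY0 l)]
    exact hμ1Y l
  obtain ⟨n, hn⟩ : ∃ n : ℕ, n = M + L + q + 1 := ⟨_, rfl⟩
  have hnM : ⌈4 * m / ε₀⌉₊ + 1 ≤ n := by omega
  have hn1 : 1 ≤ n := by omega
  have hn0 : (0 : ℝ) < n := by exact_mod_cast hn1
  have hnm : 2 * (m : ℝ) / n ≤ ε₀ / 2 := by
    have h1 : 4 * (m : ℝ) / ε₀ ≤ n := by
      calc 4 * (m : ℝ) / ε₀ ≤ (⌈4 * m / ε₀⌉₊ : ℝ) := Nat.le_ceil _
        _ ≤ n := by exact_mod_cast (by omega : ⌈4 * m / ε₀⌉₊ ≤ n)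
    rw [div_le_iff₀ hε₀] at h1
    rw [div_le_iff₀ hn0]
    linarith
  obtain ⟨t, ht⟩ : ∃ t : ℝ, t = κ * μ₁ / n := ⟨_, rfl⟩
  have ht0 : 0 < t := by rw [ht]; positivity
  obtain ⟨v, hv⟩ : ∃ v : Fin (m + 1) → ℕ → ℂ, v = fun (l : Fin (m + 1)) (i : ℕ) =>
    (κ : ℂ) * (e l * (exp (-(q * θ l * I)) * Z l i)) / ((n + i : ℕ) : ℂ) := ⟨_, rfl⟩
  have hvt : ∀ l, ∀ i ≤ 2 * m, ‖v l i - t * ζ l ^ i‖ ≤ ε₀ * t := by
    intro l i hi
    have hYl : Y l ≠ 0 := norm_pos_iff.1 (hY0 l)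
    have hql : exp (-(q * θ l * I)) ≠ 0 := exp_ne_zero _
    have hnc : (n : ℂ) ≠ 0 := by exact_mod_cast (by omega : n ≠ 0)
    have hnic : ((n + i : ℕ) : ℂ) ≠ 0 := by exact_mod_cast (by omega : n + i ≠ 0)
    obtain ⟨R, hR⟩ : ∃ R : ℂ, R = Z l i / Y l := ⟨_, rfl⟩
    have hRb : ‖R - ζ l ^ i‖ ≤ ε₀ / 2 := by
      have e1 : R - ζ l ^ i = (Z l i - exp (-(i * θ l * I)) * Y l) / Y l := by
        rw [hR, hζ]
        simp only
        rw [← Complex.exp_nat_mul]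
        have : ((i : ℂ) * -(θ l * I)) = -(i * θ l * I) := by ring
        rw [this]
        field_simp
      rw [e1, norm_div, div_le_iff₀ (hY0 l)]
      exact hZ1 l i hi
    have e2 : v l i - t * ζ l ^ i = t * ((R - ζ l ^ i) * ((n : ℝ) / ((n + i : ℕ) : ℝ) : ℝ)
        - ζ l ^ i * ((i : ℝ) / ((n + i : ℕ) : ℝ) : ℝ)) := by
      rw [hv, ht, he, hR]
      simp only
      push_cast
      push_cast at hnic
      field_simp
      ring
    rw [e2, norm_mul, Complex.norm_real, Real.norm_of_nonneg ht0.le]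
    have hni : (0 : ℝ) < ((n + i : ℕ) : ℝ) := by positivity
    have e3 : (n : ℝ) / ((n + i : ℕ) : ℝ) ≤ 1 := by
      rw [div_le_one hni]; push_cast; linarith [(Nat.cast_nonneg i : (0 : ℝ) ≤ i)]
    have e4 : (i : ℝ) / ((n + i : ℕ) : ℝ) ≤ ε₀ / 2 := by
      refine le_trans ?_ hnm
      have hi' : (i : ℝ) ≤ 2 * m := by exact_mod_cast hi
      gcongr
      push_cast; linarith [(Nat.cast_nonneg i : (0 : ℝ) ≤ i)]
    have e5 : ‖(R - ζ l ^ i) * ((n : ℝ) / ((n + i : ℕ) : ℝ) : ℝ)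
        - ζ l ^ i * ((i : ℝ) / ((n + i : ℕ) : ℝ) : ℝ)‖ ≤ ε₀ / 2 * 1 + 1 * (ε₀ / 2) := by
      refine (norm_sub_le _ _).trans (add_le_add ?_ ?_)
      · rw [norm_mul, Complex.norm_real, Real.norm_of_nonneg (by positivity)]
        gcongr
      · rw [norm_mul, norm_pow, hζ1, one_pow, Complex.norm_real, Real.norm_of_nonneg (by positivity)]
        gcongr
    calc t * _ ≤ t * (ε₀ / 2 * 1 + 1 * (ε₀ / 2)) := by gcongr
      _ = ε₀ * t := by ring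
  obtain ⟨J, hJ⟩ := hH (fun i => tc G (n + i)) v t ht0 hvt
  -- the perturbation
  obtain ⟨P, hP⟩ : ∃ P : ℂ → ℂ, P = fun z => p.eval z *
    ((m + 1 : ℂ)⁻¹ * ∑ l ∈ J, e l * ((1 + exp (-(θ l * I)) * z) / 2) ^ (2 * q)) := ⟨_, rfl⟩
  have hPd : Differentiable ℂ P := by
    rw [hP]
    have : Differentiable ℂ (fun z => p.eval z) := p.differentiable
    fun_prop
  have hint : DifferentiableOn ℂ (fun z => 1 / 2000 * deriv G z * z ^ M * P z)
      (ball 0 (1 + d)) := by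
    refine DifferentiableOn.mul (DifferentiableOn.mul ?_ ?_) hPd.differentiableOn
    · exact hdG.const_mul _
    · exact (differentiable_id.pow M).differentiableOn
  obtain ⟨u, hu0, hu⟩ := hint.isExactOn_ball.with_val_at 0 0
  have hud : DifferentiableOn ℂ u (ball 0 (1 + d)) :=
    fun z hz => (hu z hz).differentiableAt.differentiableWithinAt
  have hPb : ∀ z : ℂ, ‖z‖ ≤ 1 → ‖P z‖ ≤ 5 / 4 := by
    intro z hz
    have hs : ‖(m + 1 : ℂ)⁻¹ * ∑ l ∈ J, e l * ((1 + exp (-(θ l * I)) * z) / 2) ^ (2 * q)‖ ≤ 1 := by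
      have hmc : ‖(m + 1 : ℂ)⁻¹‖ = (m + 1 : ℝ)⁻¹ := by
        rw [norm_inv]
        have : (m + 1 : ℂ) = ((m + 1 : ℕ) : ℂ) := by push_cast; ring
        rw [this, Complex.norm_natCast]; push_cast; ring
      rw [norm_mul, hmc]
      have hsum : ‖∑ l ∈ J, e l * ((1 + exp (-(θ l * I)) * z) / 2) ^ (2 * q)‖ ≤ (m + 1 : ℝ) := by
        refine (norm_sum_le _ _).trans ?_
        calc ∑ l ∈ J, ‖e l * ((1 + exp (-(θ l * I)) * z) / 2) ^ (2 * q)‖
            ≤ ∑ l ∈ J, (1 : ℝ) := by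
              apply Finset.sum_le_sum
              intro l _
              rw [norm_mul, norm_pow]
              have h1 : ‖(1 + exp (-(θ l * I)) * z) / 2‖ ≤ 1 := by
                rw [norm_div]
                have h2 : ‖1 + exp (-(θ l * I)) * z‖ ≤ 2 := by
                  refine (norm_add_le _ _).trans ?_
                  rw [norm_mul, norm_exp_neg1, one_mul, norm_one]
                  linarith
                have h3 : ‖(2 : ℂ)‖ = 2 := by simp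
                rw [h3]
                linarith
              calc ‖e l‖ * ‖(1 + exp (-(θ l * I)) * z) / 2‖ ^ (2 * q) ≤ 1 * 1 ^ (2 * q) := by
                    gcongr
                    exact he1 l
                _ = 1 := by simp
          _ = (J.card : ℝ) := by simp
          _ ≤ (m + 1 : ℝ) := by
              have := Finset.card_le_univ J
              rw [Fintype.card_fin] at this
              exact_mod_cast this
      calc (m + 1 : ℝ)⁻¹ * _ ≤ (m + 1 : ℝ)⁻¹ * (m + 1) := by gcongr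
        _ = 1 := by field_simp
    rw [hP]
    simp only
    rw [norm_mul]
    calc _ ≤ (5 / 4 : ℝ) * 1 := by gcongr; exact hp2 z hz
      _ = 5 / 4 := by ring
  obtain ⟨hI, hS'⟩ := hCJU d G u P M hd hd1 hG hM hPb hu0 hu
  refine ⟨u, hud, hu0, hI, hS', ?_⟩
  intro c hc1 hc2
  obtain ⟨i, him, hi⟩ := hJ c hc1 hc2
  refine ⟨i, him, ?_⟩
  have hcoe := hCoe m d G u p M L q θ e J hd hG.1 (by rw [hP] at hu; exact hu)
  have htcu : ∀ i : ℕ, tc u (n + i) = ∑ l ∈ J, v l i := by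
    intro i
    have h1 := hcoe i
    rw [← hn] at h1
    have hnic : ((n + i : ℕ) : ℂ) ≠ 0 := by exact_mod_cast (by omega : n + i ≠ 0)
    rw [hv]
    simp only
    rw [← Finset.sum_div, eq_div_iff hnic, mul_comm, h1, ← Finset.mul_sum, hκ, hZ, hφ]
    push_cast
    ring
  have hsum : ∀ k : Fin (m + 1), tc (fun z => G z + u z) (M + L + q + 1 + i + k)
      = tc G (n + (i + k)) + ∑ l ∈ J, v l (i + k) := by
    intro k
    rw [← htcu, ← hn, add_assoc, tc_add hd hG.1 hud]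
  simp only [hsum]
  rw [← hn]
  refine le_trans ?_ hi
  rw [ht]
  calc c₀ * κ / 2 * μ / (n : ℝ) = c₀ * (κ * (μ / 2) / n) := by ring
    _ ≤ c₀ * (κ * μ₁ / n) := by gcongr

end Pool.Agent.Helper51.SR
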